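import Pool.Agent.K1H4.Disc.Exist

set_option autoImplicit false

/-! # The discriminant exponent of the associated form is one

For all `n ≥ 2` and `d ≥ 3` the least integer `q` such that `Δ ^ q * μ_i` is a polynomial in the
coefficients of the form for every `i` is `1`; that is, `p(n, d) = 1`. -/

namespace Pool.Agent.Results.MP_ee1e03_al.DiscriminantExponentOne

open MvPolynomial Pool.Agent.K1H4.Disc

/-- The number `μ_i(f)`: the scalar `c` with `z ^ i = c * H_f` in the Milnor algebra of `f`.
(Clause 3 of the theorem: for nondegenerate forms it exists and is unique.) -/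
noncomputable def mu {n d : ℕ} (f : MvPolynomial (Fin n) ℂ) (i : Exps n (n * (d - 2))) : ℂ :=
  Classical.epsilon fun c : ℂ => monomial i.1 1 - C c * hess f ∈ jac f

/-- The function `Δ ^ q * μ_i` on the nondegenerate forms is (the restriction of) a polynomial in
the coefficients. -/
def IsPoly {n d : ℕ} (Δ : PolyFun n d) (q : ℤ) (i : Exps n (n * (d - 2))) : Prop :=
  ∃ P : PolyFun n d, ∀ f : MvPolynomial (Fin n) ℂ, f.IsHomogeneous d → Nondegenerate f →
    value P f = value Δ f ^ q * mu f i

theorem mu_mem {n d : ℕ} (hd : 3 ≤ d) {f : MvPolynomial (Fin n) ℂ} (hf : f.IsHomogeneous d)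
    (hnd : Nondegenerate f) (i : Exps n (n * (d - 2))) :
    monomial i.1 1 - C (mu f i) * hess f ∈ jac f :=
  Classical.epsilon_spec (exists_mu hd hf hnd (monomial i.1 1) (isHomogeneous_monomial _ i.2))

theorem result (n d : ℕ) (hn : 2 ≤ n) (hd : 3 ≤ d) :
    (∃ Δ : PolyFun n d, IsDiscriminant n d Δ) ∧
    (∀ Δ Δ' : PolyFun n d, IsDiscriminant n d Δ → IsDiscriminant n d Δ' → Associated Δ Δ') ∧
    (∀ f : MvPolynomial (Fin n) ℂ, f.IsHomogeneous d → Nondegenerate f →
      ∀ i : Exps n (n * (d - 2)), ∃! c : ℂ, monomial i.1 1 - C c * hess f ∈ jac f) ∧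
    ∀ Δ : PolyFun n d, IsDiscriminant n d Δ →
      IsLeast {q : ℤ | ∀ i : Exps n (n * (d - 2)), IsPoly Δ q i} 1 := by
  refine ⟨exists_discriminant hn hd, discriminant_unique, ?_, ?_⟩
  · intro f hf hnd i
    obtain ⟨c, hc⟩ := exists_mu hd hf hnd (monomial i.1 1) (isHomogeneous_monomial _ i.2)
    exact ⟨c, hc, fun c' hc' => mu_unique hd hf hnd _ c' c hc' hc⟩
  · intro Δ hΔ
    constructor
    · intro i
      obtain ⟨P, hP⟩ := upper hn hd Δ hΔ i
      refine ⟨P, fun f hf hnd => ?_⟩
      rw [hP f hf hnd _ (mu_mem hd hf hnd i), zpow_one]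
    · intro q hq
      by_contra hlt
      have hq0 : q ≤ 0 := by omega
      choose P hP using hq
      refine lower hn hd (fun i => P i * Δ ^ (-q).toNat) ?_
      intro i f hf hnd μ hμ
      have h0 : value Δ f ≠ 0 := fun h => (hΔ.value_eq_zero_iff f hf).1 h hnd
      have h1 : μ = mu f i := mu_unique hd hf hnd _ _ _ hμ (mu_mem hd hf hnd i)
      have h2 : value (Δ ^ (-q).toNat) f = value Δ f ^ (-q) := by
        have h3 : value (Δ ^ (-q).toNat) f = value Δ f ^ (-q).toNat := map_pow _ _ _
        rw [h3, ← zpow_natCast, Int.toNat_of_nonneg (by omega)]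
      rw [value_mul, hP i f hf hnd, h1, h2, mul_right_comm, ← zpow_add₀ h0, add_neg_cancel,
        zpow_zero, one_mul]

end Pool.Agent.Results.MP_ee1e03_al.DiscriminantExponentOne
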